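import Mathlib
import Pool.Agent.Y391.RB.Sharp

set_option autoImplicit false

open Finset

namespace Pool.Agent.Results.MP_dc75f9_co.BelowHalf

/-- The walk `p` is a rainbow path for the edge colouring `col`: it is a path and no two of its
edges receive the same colour. -/
def IsRainbowPath {V : Type} {G : SimpleGraph V} (col : Sym2 V → ℕ) {u v : V}
    (p : G.Walk u v) : Prop :=
  p.IsPath ∧ (p.edges.map col).Nodup

/-- Every two vertices are joined by a rainbow path. -/
def RainbowConnected {V : Type} (G : SimpleGraph V) (col : Sym2 V → ℕ) : Prop :=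
  ∀ u v : V, ∃ p : G.Walk u v, IsRainbowPath col p

/-- The rainbow connection number: the least `k` such that the edges of `G` can be coloured with
the `k` colours `0, …, k - 1` so that `G` is rainbow connected. -/
noncomputable def rc {V : Type} (G : SimpleGraph V) : ℕ :=
  sInf {k : ℕ | ∃ col : Sym2 V → ℕ, (∀ e ∈ G.edgeSet, col e < k) ∧ RainbowConnected G col}

/-- The number of common neighbours of `u` and `v`. -/
noncomputable def codeg {V : Type} (G : SimpleGraph V) (u v : V) : ℕ :=
  {w : V | G.Adj u w ∧ G.Adj v w}.ncard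

/-- if every 2-colouring leaves a nonadjacent pair all whose common neighbours see it in one
colour then at least three colours are needed -/
lemma three_le {V : Type} [Fintype V] (G : SimpleGraph V) (hconn : G.Connected)
    (h : Pool.Agent.Y391.RB.NoTwo G) : 3 ≤ rc G := by
  classical
  apply le_csInf
  · obtain ⟨n, ⟨e⟩⟩ := Finite.exists_equiv_fin (Sym2 V)
    refine ⟨_, fun x => (e x).val, fun x _ => (e x).isLt, ?_⟩
    intro u v
    obtain ⟨p, hp⟩ := (hconn.preconnected u v).exists_isPath
    refine ⟨p, hp, ?_⟩
    apply (List.nodup_map_iff_inj_on hp.edges_nodup).mpr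
    intro x _ y _ hxy
    exact e.injective (Fin.ext hxy)
  · rintro k ⟨col, hcol, hrc⟩
    by_contra hlt
    obtain ⟨u, v, huv, hadj, hw⟩ := h col (fun e he => by
      have := hcol e he
      omega)
    obtain ⟨p, -, hp⟩ := hrc u v
    cases p with
    | nil => exact huv rfl
    | cons h1 p =>
      cases p with
      | nil => exact hadj h1
      | @cons _ w _ h2 p =>
        have e1 := hcol _ ((SimpleGraph.mem_edgeSet G).mpr h1)
        have e2 := hcol _ ((SimpleGraph.mem_edgeSet G).mpr h2)
        cases p with
        | nil =>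
          have h3 := hw _ h1 h2.symm
          simp only [SimpleGraph.Walk.edges_cons, SimpleGraph.Walk.edges_nil, List.map_cons,
            List.map_nil, List.nodup_cons, List.mem_singleton, List.not_mem_nil,
            not_false_eq_true, List.nodup_nil, and_true] at hp
          apply hp
          rw [h3, Sym2.eq_swap]
        | cons h3 p =>
          have e3 := hcol _ ((SimpleGraph.mem_edgeSet G).mpr h3)
          simp only [SimpleGraph.Walk.edges_cons, List.map_cons, List.nodup_cons,
            List.mem_cons, not_or] at hp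
          obtain ⟨⟨h4, h5, -⟩, ⟨h6, -⟩, -⟩ := hp
          omega

/-- **Below minimum degree `n / 2`, common neighbours do not help.** For all `D, s ≥ 1` there is a
connected graph of order `n ≤ 2 ^ ((4 D + 2) 2 ^ s)` with minimum degree at least
`(1 / 2 - 1 / D) n` in which any two nonadjacent vertices have at least `s` common neighbours and
whose rainbow connection number is at least `3`. -/
theorem result :
    ∀ D s : ℕ, 1 ≤ D → 1 ≤ s → ∃ (V : Type) (_ : Fintype V) (G : SimpleGraph V)
      (_ : DecidableRel G.Adj), G.Connected ∧ Fintype.card V ≤ 2 ^ ((4 * D + 2) * 2 ^ s) ∧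
      (1 / 2 - 1 / (D : ℝ)) * (Fintype.card V : ℝ) ≤ G.minDegree ∧
      (∀ u v, u ≠ v → ¬ G.Adj u v → s ≤ codeg G u v) ∧ 3 ≤ rc G := by
  classical
  intro D s hD hs
  obtain ⟨N, k, z, hk, hN, hcard, hdeg⟩ := Pool.Agent.Y391.RB.SG_params D s hD hs
  have hconn := Pool.Agent.Y391.RB.SG_connected s N k z hs
  refine ⟨_, inferInstance, Pool.Agent.Y391.RB.SG s N k z, Classical.decRel _, hconn, hcard, ?_,
    ?_, three_le _ hconn (Pool.Agent.Y391.RB.SG_noTwo s N k z hk hN)⟩
  · have := hconn.nonempty
    obtain ⟨u, hu⟩ := SimpleGraph.exists_minimal_degree_vertex (Pool.Agent.Y391.RB.SG s N k z)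
    rw [hu]
    exact hdeg _ (Pool.Agent.Y391.RB.SG_deg s N k z u)
  · intro u v huv hadj
    exact Pool.Agent.Y391.RB.SG_codeg s N k z u v huv hadj

end Pool.Agent.Results.MP_dc75f9_co.BelowHalf
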