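import Mathlib
import Pool.Agent.Y391.RB.Main
import Pool.Agent.Y391.RB.Sharp

set_option autoImplicit false

open Finset

namespace Pool.Agent.Results.MP_dc75f9_co.OreAndSharpness

/-- The walk `p` is a rainbow path for the edge colouring `col`: it is a path and no two of its
edges receive the same colour. -/
def IsRainbowPath {V : Type} {G : SimpleGraph V} (col : Sym2 V → ℕ) {u v : V}
    (p : G.Walk u v) : Prop :=
  p.IsPath ∧ (p.edges.map col).Nodup

/-- Every two vertices are joined by a rainbow path. -/
def RainbowConnected {V : Type} (G : SimpleGraph V) (col : Sym2 V → ℕ) : Prop :=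
  ∀ u v : V, ∃ p : G.Walk u v, IsRainbowPath col p

/-- The rainbow connection number: the least `k` such that the edges of `G` can be coloured with
the `k` colours `0, …, k - 1` so that `G` is rainbow connected. -/
noncomputable def rc {V : Type} (G : SimpleGraph V) : ℕ :=
  sInf {k : ℕ | ∃ col : Sym2 V → ℕ, (∀ e ∈ G.edgeSet, col e < k) ∧ RainbowConnected G col}

/-- The number of common neighbours of `u` and `v`. -/
noncomputable def codeg {V : Type} (G : SimpleGraph V) (u v : V) : ℕ :=
  {w : V | G.Adj u w ∧ G.Adj v w}.ncard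

/-- a colouring in which nonadjacent vertices have a common neighbour with two colours is a
rainbow connection colouring with two colours -/
lemma upper {V : Type} (G : SimpleGraph V) (col : Sym2 V → Bool)
    (h : ∀ u v, u ≠ v → ¬ G.Adj u v → ∃ w, G.Adj u w ∧ G.Adj v w ∧ col s(u, w) ≠ col s(v, w)) :
    2 ∈ {k : ℕ | ∃ col : Sym2 V → ℕ, (∀ e ∈ G.edgeSet, col e < k) ∧ RainbowConnected G col} := by
  refine ⟨fun e => if col e then 1 else 0, ?_, ?_⟩
  · intro e _
    simp only
    split_ifs <;> norm_num
  · intro u v
    by_cases huv : u = v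
    · subst huv
      exact ⟨SimpleGraph.Walk.nil, by simp, by simp⟩
    · by_cases hadj : G.Adj u v
      · refine ⟨SimpleGraph.Walk.cons hadj SimpleGraph.Walk.nil, ?_, by simp⟩
        simp [SimpleGraph.Walk.cons_isPath_iff, huv]
      · obtain ⟨w, h1, h2, h3⟩ := h u v huv hadj
        refine ⟨SimpleGraph.Walk.cons h1 (SimpleGraph.Walk.cons h2.symm SimpleGraph.Walk.nil),
          ?_, ?_⟩
        · simp [SimpleGraph.Walk.cons_isPath_iff, huv, h1.ne, h2.ne']
        · have h4 : s(w, v) = s(v, w) := Sym2.eq_swap
          simp only [SimpleGraph.Walk.edges_cons, SimpleGraph.Walk.edges_nil, List.map_cons,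
            List.map_nil, List.nodup_cons, List.mem_singleton, List.not_mem_nil,
            not_false_eq_true, List.nodup_nil, and_true]
          rw [h4]
          revert h3
          cases col s(u, w) <;> cases col s(v, w) <;> simp

/-- one colour is not enough for a graph that is not complete -/
lemma lower {V : Type} (G : SimpleGraph V) (hG : G ≠ ⊤) (k : ℕ)
    (hk : k ∈ {k : ℕ | ∃ col : Sym2 V → ℕ, (∀ e ∈ G.edgeSet, col e < k) ∧
      RainbowConnected G col}) : 2 ≤ k := by
  obtain ⟨col, hcol, hrc⟩ := hk
  by_contra hlt
  have hex : ∃ u v : V, u ≠ v ∧ ¬ G.Adj u v := by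
    by_contra hcon
    push Not at hcon
    apply hG
    ext u v
    rw [SimpleGraph.top_adj]
    exact ⟨fun h => h.ne, fun h => hcon u v h⟩
  obtain ⟨u, v, huv, hadj⟩ := hex
  obtain ⟨p, -, hp⟩ := hrc u v
  cases p with
  | nil => exact huv rfl
  | cons h1 p =>
    cases p with
    | nil => exact hadj h1
    | cons h2 p =>
      rw [SimpleGraph.Walk.edges_cons, SimpleGraph.Walk.edges_cons, List.map_cons, List.map_cons,
        List.nodup_cons] at hp
      apply hp.1
      have e1 := hcol _ ((SimpleGraph.mem_edgeSet G).mpr h1)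
      have e2 := hcol _ ((SimpleGraph.mem_edgeSet G).mpr h2)
      rw [List.mem_cons]
      left
      omega

/-- if every 2-colouring leaves a nonadjacent pair all whose common neighbours see it in one
colour then at least three colours are needed -/
lemma three_le {V : Type} [Fintype V] (G : SimpleGraph V) (hconn : G.Connected)
    (h : Pool.Agent.Y391.RB.NoTwo G) : 3 ≤ rc G := by
  classical
  apply le_csInf
  · obtain ⟨n, ⟨e⟩⟩ := Finite.exists_equiv_fin (Sym2 V)
    refine ⟨_, fun x => (e x).val, fun x _ => (e x).isLt, ?_⟩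
    intro u v
    obtain ⟨p, hp⟩ := (hconn.preconnected u v).exists_isPath
    refine ⟨p, hp, ?_⟩
    apply (List.nodup_map_iff_inj_on hp.edges_nodup).mpr
    intro x _ y _ hxy
    exact e.injective (Fin.ext hxy)
  · rintro k ⟨col, hcol, hrc⟩
    by_contra hlt
    obtain ⟨u, v, huv, hadj, hw⟩ := h col (fun e he => by
      have := hcol e he
      omega)
    obtain ⟨p, -, hp⟩ := hrc u v
    cases p with
    | nil => exact huv rfl
    | cons h1 p =>
      cases p with
      | nil => exact hadj h1
      | @cons _ w _ h2 p =>
        have e1 := hcol _ ((SimpleGraph.mem_edgeSet G).mpr h1)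
        have e2 := hcol _ ((SimpleGraph.mem_edgeSet G).mpr h2)
        cases p with
        | nil =>
          have h3 := hw _ h1 h2.symm
          simp only [SimpleGraph.Walk.edges_cons, SimpleGraph.Walk.edges_nil, List.map_cons,
            List.map_nil, List.nodup_cons, List.mem_singleton, List.not_mem_nil,
            not_false_eq_true, List.nodup_nil, and_true] at hp
          apply hp
          rw [h3, Sym2.eq_swap]
        | cons h3 p =>
          have e3 := hcol _ ((SimpleGraph.mem_edgeSet G).mpr h3)
          simp only [SimpleGraph.Walk.edges_cons, List.map_cons, List.nodup_cons,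
            List.mem_cons, not_or] at hp
          obtain ⟨⟨h4, h5, -⟩, ⟨h6, -⟩, -⟩ := hp
          omega

open Pool.Agent.Helper208.Rainbow in
lemma codeg_eq {V : Type} [Fintype V] [DecidableEq V] (G : SimpleGraph V) [DecidableRel G.Adj]
    (u v : V) : codeg G u v = t G u v := by
  unfold codeg t
  rw [← Set.ncard_coe_finset]
  congr 1
  ext w
  simp [W]

open Pool.Agent.Helper208.Rainbow in
lemma nb_card {V : Type} [Fintype V] [DecidableEq V] (G : SimpleGraph V) [DecidableRel G.Adj]
    (u : V) : (nb G u).card = G.degree u := by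
  rw [← SimpleGraph.card_neighborFinset_eq_degree]
  congr 1
  ext w
  simp [nb]

open Pool.Agent.Helper208.Rainbow in
/-- the degree sum controls the number of vertices adjacent to neither end -/
lemma compl_deg {V : Type} [Fintype V] [DecidableEq V] (G : SimpleGraph V) [DecidableRel G.Adj]
    (u v : V) : ((nb G u ∪ nb G v)ᶜ).card + (G.degree u + G.degree v) =
      Fintype.card V + codeg G u v := by
  have h1 := card_union_add_card_inter (nb G u) (nb G v)
  rw [← W_eq, nb_card, nb_card] at h1
  have h4 := card_compl (nb G u ∪ nb G v)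
  have h5 : (nb G u ∪ nb G v).card ≤ Fintype.card V := card_le_univ _
  rw [codeg_eq]
  unfold t
  omega

/-- the main theorem in its general form -/
lemma main {V : Type} [Fintype V] (r : ℕ) (G : SimpleGraph V) [DecidableRel G.Adj] (hG : G ≠ ⊤)
    (h : ∀ u v, u ≠ v → ¬ G.Adj u v → 36 + 3 * r ≤ codeg G u v ∧
      Fintype.card V ≤ G.degree u + G.degree v + (2 ^ r - 1) * codeg G u v) : rc G = 2 := by
  classical
  have : Nonempty V := by
    by_contra hcon
    rw [not_nonempty_iff] at hcon
    apply hG
    ext u
    exact (hcon.false u).elim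
  obtain ⟨col, hcol⟩ := Pool.Agent.Y391.RB.colouring_exists' (G := G) r
    (fun u v huv hadj => by
      have h1 := (h u v huv hadj).2
      have h2 := compl_deg G u v
      rw [← codeg_eq]
      have h3 : (2 ^ r - 1) * codeg G u v + codeg G u v = 2 ^ r * codeg G u v := by
        have h4 : 1 ≤ 2 ^ r := Nat.one_le_two_pow
        calc (2 ^ r - 1) * codeg G u v + codeg G u v
            = (2 ^ r - 1 + 1) * codeg G u v := by ring
          _ = 2 ^ r * codeg G u v := by rw [Nat.sub_add_cancel h4]
      omega)
    (fun u v huv hadj => by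
      have h1 := (h u v huv hadj).1
      rwa [codeg_eq] at h1)
  exact le_antisymm (Nat.sInf_le (upper G col hcol))
    (le_csInf ⟨2, upper G col hcol⟩ (fun k hk => lower G hG k hk))

/-- **Rainbow connection number two under degree conditions.** `codeg G u v` is the number of
common neighbours of `u` and `v`, and `n` is the order of `G`.

1. The question, with a constant `c ≤ 17`: every non-complete graph of order `n` with minimum
degree at least `n / 2 + c` has rainbow connection number `2`.

2. The general form, for every `r`: if any two nonadjacent vertices `u ≠ v` of the non-complete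
graph `G` have `codeg G u v ≥ 36 + 3 r` common neighbours and
`d(u) + d(v) + (2 ^ r - 1) codeg G u v ≥ n`, then `G` has rainbow connection number `2`.

3. The order of the bound `36 + 3 r` is right: for every `r ≥ 2` some connected graph of rainbow
connection number at least `3` satisfies the second condition of part 2 and all its nonadjacent
`u ≠ v` have at least `r` common neighbours. -/
theorem result :
    (∃ c : ℝ, 0 ≤ c ∧ c ≤ 17 ∧ ∀ (V : Type) [Fintype V] (G : SimpleGraph V)
      [DecidableRel G.Adj], G ≠ ⊤ → (Fintype.card V : ℝ) / 2 + c ≤ G.minDegree → rc G = 2) ∧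
    (∀ (r : ℕ) (V : Type) [Fintype V] (G : SimpleGraph V) [DecidableRel G.Adj], G ≠ ⊤ →
      (∀ u v, u ≠ v → ¬ G.Adj u v → 36 + 3 * r ≤ codeg G u v ∧
        Fintype.card V ≤ G.degree u + G.degree v + (2 ^ r - 1) * codeg G u v) → rc G = 2) ∧
    (∀ r : ℕ, 2 ≤ r → ∃ (V : Type) (_ : Fintype V) (G : SimpleGraph V) (_ : DecidableRel G.Adj),
      G.Connected ∧ (∀ u v, u ≠ v → ¬ G.Adj u v → r ≤ codeg G u v ∧
        Fintype.card V ≤ G.degree u + G.degree v + (2 ^ r - 1) * codeg G u v) ∧ 3 ≤ rc G) := by
  classical
  refine ⟨⟨17, by norm_num, le_rfl, ?_⟩, ?_, ?_⟩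
  · intro V _ G _ hG hmin
    have hminN : Fintype.card V + 34 ≤ 2 * G.minDegree := by
      have h1 : (Fintype.card V : ℝ) + 34 ≤ 2 * G.minDegree := by linarith
      exact_mod_cast h1
    refine main 0 G hG ?_
    intro u v huv hadj
    have h1 := G.minDegree_le_degree u
    have h2 := G.minDegree_le_degree v
    have h3 := compl_deg G u v
    have h4 : 2 ≤ ((Pool.Agent.Helper208.Rainbow.nb G u ∪
        Pool.Agent.Helper208.Rainbow.nb G v)ᶜ).card := by
      rw [← card_pair huv]
      apply card_le_card
      intro w hw
      rw [mem_insert, mem_singleton] at hw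
      rw [mem_compl, mem_union, Pool.Agent.Helper208.Rainbow.mem_nb,
        Pool.Agent.Helper208.Rainbow.mem_nb]
      rintro (h | h)
      · rcases hw with rfl | rfl
        · exact G.loopless.irrefl _ h
        · exact hadj h
      · rcases hw with rfl | rfl
        · exact hadj h.symm
        · exact G.loopless.irrefl _ h
    constructor
    · omega
    · omega
  · intro r V _ G _ hG h
    exact main r G hG h
  · intro s hs
    refine ⟨_, inferInstance, Pool.Agent.Y391.RB.BG s, Classical.decRel _,
      Pool.Agent.Y391.RB.BG_connected s (by omega), ?_,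
      three_le _ (Pool.Agent.Y391.RB.BG_connected s (by omega)) (Pool.Agent.Y391.RB.BG_noTwo s)⟩
    intro u v _ hadj
    obtain ⟨h1, h2⟩ := Pool.Agent.Y391.RB.BG_deg s (by omega) u v hadj
    have h2' : s ≤ codeg (Pool.Agent.Y391.RB.BG s) u v := h2
    refine ⟨h2', ?_⟩
    have h3 : 2 ^ s ≤ (2 ^ s - 1) * codeg (Pool.Agent.Y391.RB.BG s) u v := by
      have h4 : 2 ≤ 2 ^ s := by
        calc 2 = 2 ^ 1 := by norm_num
          _ ≤ 2 ^ s := Nat.pow_le_pow_right (by norm_num) (by omega)
      calc 2 ^ s ≤ (2 ^ s - 1) * 2 := by omega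
        _ ≤ (2 ^ s - 1) * codeg (Pool.Agent.Y391.RB.BG s) u v :=
            Nat.mul_le_mul_left _ (by omega)
    omega

end Pool.Agent.Results.MP_dc75f9_co.OreAndSharpness
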